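import Mathlib
import Pool.Agent.R366.NF.Final

set_option autoImplicit false

/-!
# The radical of a point with factored coordinates and truncated counting functions
-/

namespace Pool.Agent.R366.AB

open MvPolynomial NumberField IsDedekindDomain Pool.Agent.R366.NF

open scoped Classical

variable {K : Type} [Field K] [NumberField K] {n q r : ℕ}

/-- values of a finite place are powers of the norm -/
lemma fp_value (v : HeightOneSpectrum (𝓞 K)) {a : K} (ha : a ≠ 0) :
    ∃ m : ℤ, FinitePlace.mk v a = (Ideal.absNorm v.asIdeal : ℝ) ^ m := by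
  have h0 : v.valuation K a ≠ 0 := (v.valuation K).ne_zero_iff.mpr ha
  refine ⟨Multiplicative.toAdd (WithZero.unzero h0), ?_⟩
  rw [FinitePlace.mk_apply, FinitePlace.norm_embedding', WithZeroMulInt.toNNReal_neg_apply _ h0]
  push_cast
  rfl

lemma one_lt_N (v : HeightOneSpectrum (𝓞 K)) : (1 : ℝ) < Ideal.absNorm v.asIdeal := by
  exact_mod_cast NumberField.HeightOneSpectrum.one_lt_absNorm v

lemma fp_lt_one (v : HeightOneSpectrum (𝓞 K)) {a : K} (ha : a ≠ 0) (h : FinitePlace.mk v a < 1) :
    FinitePlace.mk v a ≤ (Ideal.absNorm v.asIdeal : ℝ)⁻¹ := by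
  obtain ⟨m, hm⟩ := fp_value v ha
  have h1 := one_lt_N v
  rw [hm] at h ⊢
  have h2 : m < 0 := by
    by_contra hcon
    push Not at hcon
    exact absurd h (not_lt.2 (one_le_zpow₀ h1.le hcon))
  rw [← zpow_neg_one]
  exact zpow_le_zpow_right₀ h1.le (by omega)

omit [NumberField K] in
lemma aeval_eq_eval (F : MvPolynomial (Fin (n + 1)) (𝓞 K)) (x : Fin (n + 1) → K) :
    aeval x F = eval x (map (algebraMap (𝓞 K) K) F) := by
  rw [aeval_def, eval_map]

/-- integral forms are bounded at the finite places -/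
lemma fp_form_le (v : FinitePlace K) (F : MvPolynomial (Fin (n + 1)) (𝓞 K)) {k : ℕ}
    (hF : F.IsHomogeneous k) (x : Fin (n + 1) → K) :
    v (aeval x F) ≤ (⨆ i, v (x i)) ^ k := by
  rw [aeval_eq_eval]
  have h1 : IsNonarchimedean v.1 := fun a b => FinitePlace.add_le v a b
  have h2 := h1.eval_mvPolynomial_le (hF.map (algebraMap (𝓞 K) K)) x
  have h0 : 0 ≤ (⨆ i, v (x i)) ^ k := pow_nonneg (Real.iSup_nonneg fun i => apply_nonneg v _) _
  refine le_trans h2 (mul_le_of_le_one_left h0 ?_)
  refine Real.iSup_le (fun s => ?_) zero_le_one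
  rw [coeff_map]
  exact fp_le_one v _

/-- at the archimedean places -/
lemma arch_form_le (F : MvPolynomial (Fin (n + 1)) (𝓞 K)) {k : ℕ}
    (hF : F.IsHomogeneous k) : ∃ A : ℝ, 1 ≤ A ∧ ∀ (w : InfinitePlace K) (x : Fin (n + 1) → K),
      w (aeval x F) ≤ A * (⨆ i, w (x i)) ^ k := by
  refine ⟨1 + ∑ w : InfinitePlace K,
    (AddMonoidAlgebra.coeff (map (algebraMap (𝓞 K) K) F)).sum (fun _ c ↦ w.1 c), ?_, ?_⟩
  · have : 0 ≤ ∑ w : InfinitePlace K,
        (AddMonoidAlgebra.coeff (map (algebraMap (𝓞 K) K) F)).sum (fun _ c ↦ w.1 c) :=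
      Finset.sum_nonneg fun w _ => Finset.sum_nonneg fun _ _ => w.1.nonneg _
    linarith
  · intro w x
    rw [aeval_eq_eval]
    have h1 := AbsoluteValue.eval_mvPolynomial_le w.1 (hF.map (algebraMap (𝓞 K) K)) x
    refine le_trans h1 (mul_le_mul_of_nonneg_right ?_
      (pow_nonneg (Real.iSup_nonneg fun i => w.1.nonneg _) _))
    have h2 := Finset.single_le_sum (f := fun w : InfinitePlace K =>
      (AddMonoidAlgebra.coeff (map (algebraMap (𝓞 K) K) F)).sum (fun _ c ↦ w.1 c))
      (fun w _ => Finset.sum_nonneg fun _ _ => w.1.nonneg _) (Finset.mem_univ w)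
    have h3 : (AddMonoidAlgebra.coeff (map (algebraMap (𝓞 K) K) F)).sum (fun _ c ↦ w.1 c) ≤
        ∑ w : InfinitePlace K,
          (AddMonoidAlgebra.coeff (map (algebraMap (𝓞 K) K) F)).sum (fun _ c ↦ w.1 c) := h2
    linarith

/-- the radical (relative to `K`) of a point -/
noncomputable def radK (z : Fin r → K) : ℝ :=
  ∑ᶠ v : HeightOneSpectrum (𝓞 K), if ∃ i j, FinitePlace.mk v (z i) ≠ FinitePlace.mk v (z j)
    then Real.log (Ideal.absNorm v.asIdeal) else 0

lemma logN_pos (v : HeightOneSpectrum (𝓞 K)) : 0 < Real.log (Ideal.absNorm v.asIdeal) :=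
  Real.log_pos (one_lt_N v)

lemma fin_ne_one {a : K} (ha : a ≠ 0) : {v : HeightOneSpectrum (𝓞 K) | FinitePlace.mk v a ≠ 1}.Finite := by
  have h := FinitePlace.hasFiniteMulSupport ha
  have h2 : Set.InjOn (FinitePlace.mk (K := K)) ((FinitePlace.mk (K := K)) ⁻¹'
      Function.mulSupport fun w : FinitePlace K => w a) := by
    intro v _ w _ hvw
    exact FinitePlace.mk_eq_iff.1 hvw
  exact (Set.Finite.preimage h2 h).subset fun v hv => hv

/-- **comparison of the truncated counting function and the radical** -/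
theorem trunc_le_rad (F : Fin q → MvPolynomial (Fin (n + 1)) (𝓞 K)) (k : Fin q → ℕ)
    (hF : ∀ j, (F j).IsHomogeneous (k j)) (D : ℕ) (a : Fin r → Fin q → ℕ)
    (ha : ∀ i, ∑ j, a i j * k j = D) (hpos : ∀ j, ∃ i, 1 ≤ a i j) (l : Fin q → Fin r)
    (c : Fin r → K) (hc : ∀ i, c i ≠ 0) (S : Finset ℕ) :
    ∃ C : ℝ, ∀ x : Fin (n + 1) → K, x ≠ 0 → (∀ j, aeval x (F j) ≠ 0) →
      truncatedCount S F k x ≤ radK (fun i => c i * ∏ j, aeval x (F j) ^ a i j) +
        ∑ j, idealHeight (F j) (∏ j', F j' ^ a (l j) j') (k j) D x + C := by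
  have hG : ∀ i, (∏ j', F j' ^ a i j').IsHomogeneous D := by
    intro i
    rw [← ha i]
    have := IsHomogeneous.prod Finset.univ (fun j' => F j' ^ a i j') (fun j' => a i j' * k j')
      (fun j' _ => by
        have := (hF j').pow (a i j')
        rwa [mul_comm] at this)
    exact this
  -- the constants
  choose A hA1 hA using fun j => arch_form_le (F j) (hF j)
  choose A' hA'1 hA' using fun j => arch_form_le (∏ j', F j' ^ a (l j) j') (hG (l j))
  have hV0 : (⋃ i, {v : HeightOneSpectrum (𝓞 K) | FinitePlace.mk v (c i) ≠ 1}).Finite :=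
    Set.finite_iUnion fun i => fin_ne_one (hc i)
  set V0 := hV0.toFinset with hV0'
  have hV0m : ∀ v, v ∉ V0 → ∀ i, FinitePlace.mk v (c i) = 1 := by
    intro v hv i
    by_contra h
    apply hv
    rw [hV0', Set.Finite.mem_toFinset, Set.mem_iUnion]
    exact ⟨i, h⟩
  refine ⟨∑ v ∈ V0, Real.log (Ideal.absNorm v.asIdeal) +
    ∑ j, ∑ w : InfinitePlace K, w.mult * Real.log (max (A j) (A' j)), ?_⟩
  intro x hx hFx
  set z : Fin r → K := fun i => c i * ∏ j, aeval x (F j) ^ a i j with hz
  have hz0 : ∀ i, z i ≠ 0 := fun i => mul_ne_zero (hc i)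
    (Finset.prod_ne_zero_iff.2 fun j _ => pow_ne_zero _ (hFx j))
  have hGx : ∀ i, aeval x (∏ j', F j' ^ a i j') = ∏ j, aeval x (F j) ^ a i j := by
    intro i
    rw [map_prod]
    exact Finset.prod_congr rfl fun j _ => map_pow _ _ _
  have hs0 : ∀ v : HeightOneSpectrum (𝓞 K), 0 < ⨆ i, FinitePlace.mk v (x i) :=
    fun v => sup_pos hx (FinitePlace.mk v).1
  -- the finite set of places
  have hsupx : (Function.mulSupport fun v : FinitePlace K => ⨆ i, v (x i)).Finite :=
    Pool.Agent.H57R3.VJ.sv_fin hx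
  have hsupx' : {v : HeightOneSpectrum (𝓞 K) | (⨆ i, FinitePlace.mk v (x i)) ≠ 1}.Finite := by
    have h2 : Set.InjOn (FinitePlace.mk (K := K)) ((FinitePlace.mk (K := K)) ⁻¹'
        Function.mulSupport fun v : FinitePlace K => ⨆ i, v (x i)) := by
      intro v _ w _ hvw
      exact FinitePlace.mk_eq_iff.1 hvw
    exact (Set.Finite.preimage h2 hsupx).subset fun v hv => hv
  have hfin : (((⋃ j, {v : HeightOneSpectrum (𝓞 K) | FinitePlace.mk v (aeval x (F j)) ≠ 1}) ∪
      {v : HeightOneSpectrum (𝓞 K) | (⨆ i, FinitePlace.mk v (x i)) ≠ 1}) ∪ (V0 : Set _)).Finite :=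
    ((Set.finite_iUnion fun j => fin_ne_one (hFx j)).union hsupx').union V0.finite_toSet
  set T := hfin.toFinset with hT
  have hTm : ∀ v, v ∉ T → (∀ j, FinitePlace.mk v (aeval x (F j)) = 1) ∧
      (⨆ i, FinitePlace.mk v (x i)) = 1 ∧ v ∉ V0 := by
    intro v hv
    rw [hT, Set.Finite.mem_toFinset, Set.mem_union, Set.mem_union, not_or, not_or] at hv
    obtain ⟨⟨h1, h2⟩, h3⟩ := hv
    refine ⟨fun j => ?_, ?_, h3⟩
    · by_contra h
      exact h1 (Set.mem_iUnion.2 ⟨j, h⟩)
    · by_contra h
      exact h2 h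
  have hTz : ∀ v, v ∉ T → ∀ i, FinitePlace.mk v (z i) = 1 := by
    intro v hv i
    obtain ⟨h1, -, h3⟩ := hTm v hv
    rw [hz]
    simp only [map_mul, map_prod, map_pow, h1, hV0m v h3 i, one_pow, Finset.prod_const_one, mul_one]
  -- the truncated counting function
  have e1 : truncatedCount S F k x = ∑ v ∈ T, if (∀ p ∈ S, (p : 𝓞 K) ∉ v.asIdeal) ∧
      ∃ j, FinitePlace.mk v (aeval x (F j)) < (⨆ i, FinitePlace.mk v (x i)) ^ k j
    then Real.log (Ideal.absNorm v.asIdeal) else 0 := by
    unfold truncatedCount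
    refine finsum_eq_sum_of_support_subset _ ?_
    intro v hv
    by_contra hvT
    obtain ⟨h1, h2, -⟩ := hTm v hvT
    apply hv
    show (if _ then _ else _) = _
    rw [if_neg]
    rintro ⟨-, j, h⟩
    rw [h1, h2, one_pow] at h
    exact lt_irrefl _ h
  have e2 : radK z = ∑ v ∈ T, if ∃ i j, FinitePlace.mk v (z i) ≠ FinitePlace.mk v (z j)
    then Real.log (Ideal.absNorm v.asIdeal) else 0 := by
    unfold radK
    refine finsum_eq_sum_of_support_subset _ ?_
    intro v hv
    by_contra hvT
    apply hv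
    show (if _ then _ else _) = _
    rw [if_neg]
    rintro ⟨i, j, h⟩
    exact h (by rw [hTz v hvT, hTz v hvT])
  -- the ideal heights
  have hloc0 : ∀ (v : HeightOneSpectrum (𝓞 K)) j, 0 ≤ idealLoc (F j) (∏ j', F j' ^ a (l j) j')
      (k j) D x (FinitePlace.mk v) := by
    intro v j
    unfold idealLoc
    rw [le_neg, neg_zero]
    refine Real.log_nonpos (le_max_of_le_left (div_nonneg (apply_nonneg _ _)
      (pow_nonneg (hs0 v).le _))) (max_le ?_ ?_)
    · rw [div_le_one (pow_pos (hs0 v) _)]
      exact fp_form_le _ _ (hF j) x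
    · rw [div_le_one (pow_pos (hs0 v) _)]
      exact fp_form_le _ _ (hG (l j)) x
  have e3 : ∀ j, ∑ v ∈ T, idealLoc (F j) (∏ j', F j' ^ a (l j) j') (k j) D x (FinitePlace.mk v) -
      ∑ w : InfinitePlace K, w.mult * Real.log (max (A j) (A' j)) ≤
      idealHeight (F j) (∏ j', F j' ^ a (l j) j') (k j) D x := by
    intro j
    unfold idealHeight
    have h1 : ∑ᶠ v : FinitePlace K, idealLoc (F j) (∏ j', F j' ^ a (l j) j') (k j) D x v =
        ∑ v ∈ T, idealLoc (F j) (∏ j', F j' ^ a (l j) j') (k j) D x (FinitePlace.mk v) := by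
      rw [← finsum_comp_equiv (FinitePlace.equivHeightOneSpectrum (K := K)).symm]
      refine finsum_eq_sum_of_support_subset _ ?_
      intro v hv
      by_contra hvT
      obtain ⟨h1, h2, -⟩ := hTm v hvT
      apply hv
      show idealLoc (F j) (∏ j', F j' ^ a (l j) j') (k j) D x (FinitePlace.mk v) = 0
      unfold idealLoc
      rw [h2, hGx, map_prod, h1]
      simp only [map_pow, h1, one_pow, Finset.prod_const_one, div_one, max_self, Real.log_one,
        neg_zero]
    have h2 : -∑ w : InfinitePlace K, w.mult * Real.log (max (A j) (A' j)) ≤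
        ∑ w : InfinitePlace K, w.mult * idealLoc (F j) (∏ j', F j' ^ a (l j) j') (k j) D x w := by
      rw [← Finset.sum_neg_distrib]
      refine Finset.sum_le_sum fun w _ => ?_
      rw [← mul_neg]
      refine mul_le_mul_of_nonneg_left ?_ (Nat.cast_nonneg _)
      unfold idealLoc
      rw [neg_le_neg_iff]
      have hs : 0 < ⨆ i, w (x i) := sup_pos hx w.1
      refine Real.log_le_log (lt_max_of_lt_left (div_pos (InfinitePlace.pos_iff.2 (hFx j))
        (pow_pos hs _))) (max_le_max ?_ ?_)
      · rw [div_le_iff₀ (pow_pos hs _)]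
        exact hA j w x
      · rw [div_le_iff₀ (pow_pos hs _)]
        exact hA' j w x
    rw [h1]
    linarith
  -- the local comparison
  have hloc : ∀ v ∈ T, (if (∀ p ∈ S, (p : 𝓞 K) ∉ v.asIdeal) ∧
      ∃ j, FinitePlace.mk v (aeval x (F j)) < (⨆ i, FinitePlace.mk v (x i)) ^ k j
      then Real.log (Ideal.absNorm v.asIdeal) else 0) ≤
      (if ∃ i j, FinitePlace.mk v (z i) ≠ FinitePlace.mk v (z j)
        then Real.log (Ideal.absNorm v.asIdeal) else 0) +
      ∑ j, idealLoc (F j) (∏ j', F j' ^ a (l j) j') (k j) D x (FinitePlace.mk v) +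
      (if v ∈ V0 then Real.log (Ideal.absNorm v.asIdeal) else 0) := by
    intro v _
    have hN := logN_pos v
    have h0 : 0 ≤ ∑ j, idealLoc (F j) (∏ j', F j' ^ a (l j) j') (k j) D x (FinitePlace.mk v) :=
      Finset.sum_nonneg fun j _ => hloc0 v j
    by_cases h1 : (∀ p ∈ S, (p : 𝓞 K) ∉ v.asIdeal) ∧
      ∃ j, FinitePlace.mk v (aeval x (F j)) < (⨆ i, FinitePlace.mk v (x i)) ^ k j
    · rw [if_pos h1]
      by_cases h2 : ∃ i j, FinitePlace.mk v (z i) ≠ FinitePlace.mk v (z j)
      · rw [if_pos h2]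
        have : 0 ≤ (if v ∈ V0 then Real.log (Ideal.absNorm v.asIdeal : ℝ) else 0) := by
          split_ifs
          · exact hN.le
          · exact le_rfl
        linarith
      · by_cases h3 : v ∈ V0
        · rw [if_neg h2, if_pos h3]
          linarith
        · rw [if_neg h2, if_neg h3]
          push Not at h2
          obtain ⟨-, j, hj⟩ := h1
          -- the coordinate `i₀` divisible by `F j`
          obtain ⟨i₀, hi₀⟩ := hpos j
          set σ := ⨆ i, FinitePlace.mk v (x i) with hσ
          have hσ0 : 0 < σ := hs0 v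
          have h4 : FinitePlace.mk v (z i₀) < σ ^ D := by
            rw [hz]
            simp only [map_mul, map_prod, map_pow]
            rw [hV0m v h3, one_mul, ← ha i₀, ← Finset.prod_pow_eq_pow_sum]
            refine Finset.prod_lt_prod (fun j' _ => pow_pos (FinitePlace.pos_iff.2 (hFx j')) _)
              (fun j' _ => ?_) ⟨j, Finset.mem_univ j, ?_⟩
            · rw [mul_comm, pow_mul]
              exact pow_le_pow_left₀ (apply_nonneg _ _) (fp_form_le _ _ (hF j') x) _
            · rw [mul_comm, pow_mul]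
              exact pow_lt_pow_left₀ hj (apply_nonneg _ _) (by omega)
          have h5 : FinitePlace.mk v (aeval x (∏ j', F j' ^ a (l j) j')) < σ ^ D := by
            have h6 := h2 (l j) i₀
            rw [← h6] at h4
            rw [hGx]
            have h7 : FinitePlace.mk v (z (l j)) =
                FinitePlace.mk v (∏ j', aeval x (F j') ^ a (l j) j') := by
              rw [hz]
              simp only [map_mul]
              rw [hV0m v h3, one_mul]
            rwa [h7] at h4
          have h6 : Real.log (Ideal.absNorm v.asIdeal) ≤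
              idealLoc (F j) (∏ j', F j' ^ a (l j) j') (k j) D x (FinitePlace.mk v) := by
            obtain ⟨i₁, hi₁⟩ : ∃ i₁, FinitePlace.mk v (x i₁) = σ := by
              have := exists_eq_ciSup_of_finite (f := fun i => FinitePlace.mk v (x i))
              exact this
            have hx1 : x i₁ ≠ 0 := by
              rw [← FinitePlace.pos_iff (w := FinitePlace.mk v), hi₁]; exact hσ0
            have hGne : aeval x (∏ j', F j' ^ a (l j) j') ≠ 0 := by
              rw [hGx]
              exact Finset.prod_ne_zero_iff.2 fun j _ => pow_ne_zero _ (hFx j)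
            have h7 : FinitePlace.mk v (aeval x (F j)) / σ ^ k j ≤
                (Ideal.absNorm v.asIdeal : ℝ)⁻¹ := by
              have h8 : FinitePlace.mk v (aeval x (F j)) / σ ^ k j =
                  FinitePlace.mk v (aeval x (F j) / x i₁ ^ k j) := by
                rw [map_div₀, map_pow, hi₁]
              rw [h8]
              refine fp_lt_one v (div_ne_zero (hFx j) (pow_ne_zero _ hx1)) ?_
              rw [← h8, div_lt_one (pow_pos hσ0 _)]
              exact hj
            have h9 : FinitePlace.mk v (aeval x (∏ j', F j' ^ a (l j) j')) / σ ^ D ≤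
                (Ideal.absNorm v.asIdeal : ℝ)⁻¹ := by
              have h8 : FinitePlace.mk v (aeval x (∏ j', F j' ^ a (l j) j')) / σ ^ D =
                  FinitePlace.mk v (aeval x (∏ j', F j' ^ a (l j) j') / x i₁ ^ D) := by
                rw [map_div₀, map_pow, hi₁]
              rw [h8]
              refine fp_lt_one v (div_ne_zero hGne (pow_ne_zero _ hx1)) ?_
              rw [← h8, div_lt_one (pow_pos hσ0 _)]
              exact h5
            unfold idealLoc
            rw [← hσ, le_neg, ← Real.log_inv]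
            refine Real.log_le_log (lt_max_of_lt_left (div_pos (FinitePlace.pos_iff.2 (hFx j))
              (pow_pos hσ0 _))) (max_le h7 h9)
          have h7 := Finset.single_le_sum (f := fun j => idealLoc (F j)
            (∏ j', F j' ^ a (l j) j') (k j) D x (FinitePlace.mk v))
            (fun j _ => hloc0 v j) (Finset.mem_univ j)
          linarith
    · rw [if_neg h1]
      have h2 : 0 ≤ (if ∃ i j, FinitePlace.mk v (z i) ≠ FinitePlace.mk v (z j)
        then Real.log (Ideal.absNorm v.asIdeal : ℝ) else 0) := by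
        split_ifs
        · exact hN.le
        · exact le_rfl
      have h3 : 0 ≤ (if v ∈ V0 then Real.log (Ideal.absNorm v.asIdeal : ℝ) else 0) := by
        split_ifs
        · exact hN.le
        · exact le_rfl
      linarith
  have h4 := Finset.sum_le_sum hloc
  rw [← e1, Finset.sum_add_distrib, Finset.sum_add_distrib, ← e2, Finset.sum_comm] at h4
  have h5 : ∑ v ∈ T, (if v ∈ V0 then Real.log (Ideal.absNorm v.asIdeal : ℝ) else 0) ≤
      ∑ v ∈ V0, Real.log (Ideal.absNorm v.asIdeal) := by
    rw [← Finset.sum_filter]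
    refine Finset.sum_le_sum_of_subset_of_nonneg (fun v hv => (Finset.mem_filter.1 hv).2)
      fun v _ _ => (logN_pos v).le
  have h6 := Finset.sum_le_sum fun j (_ : j ∈ Finset.univ) => e3 j
  rw [Finset.sum_sub_distrib] at h6
  linarith

end Pool.Agent.R366.AB
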