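import Mathlib
import Pool.Agent.R366.AB.Loc

set_option autoImplicit false

/-!
# Points of rational subvarieties of the hyperplane `z_1 + ⋯ + z_r = 0`
-/

namespace Pool.Agent.R366.AB

open MvPolynomial NumberField IsDedekindDomain Pool.Agent.R366.NF

open scoped Classical LinearAlgebra.Projectivization

variable {K : Type} [Field K] [NumberField K] {n q r : ℕ}

/-- the point with factored coordinates -/
noncomputable def pt (F : Fin q → MvPolynomial (Fin (n + 1)) (𝓞 K)) (a : Fin r → Fin q → ℕ)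
    (c : Fin r → K) (x : Fin (n + 1) → K) : Fin r → K :=
  fun i => c i * ∏ j, aeval x (F j) ^ a i j

/-- the height of the point -/
lemma height_pt [Nonempty (Fin r)] (F : Fin q → MvPolynomial (Fin (n + 1)) (𝓞 K)) (k : Fin q → ℕ)
    (hF : ∀ j, (F j).IsHomogeneous (k j)) (D : ℕ) (a : Fin r → Fin q → ℕ)
    (ha : ∀ i, ∑ j, a i j * k j = D) (c : Fin r → K) :
    ∃ C : ℝ, ∀ x : Fin (n + 1) → K,
      Height.logHeight (pt F a c x) ≤ C + D * Height.logHeight x := by
  obtain ⟨C, hC⟩ := Height.logHeight_eval_le' (K := K) (N := D)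
    (p := fun i : Fin r => (MvPolynomial.C (c i) *
      ∏ j, map (algebraMap (𝓞 K) K) (F j) ^ a i j : MvPolynomial (Fin (n + 1)) K)) (by
      intro i
      have h1 := IsHomogeneous.prod Finset.univ
        (fun j => map (algebraMap (𝓞 K) K) (F j) ^ a i j) (fun j => a i j * k j)
        (fun j _ => by
          have := ((hF j).map (algebraMap (𝓞 K) K)).pow (a i j)
          rwa [mul_comm] at this)
      rw [ha i] at h1
      have h2 := (isHomogeneous_C (Fin (n + 1)) (c i)).mul h1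
      rwa [zero_add] at h2)
  refine ⟨C, fun x => ?_⟩
  have h1 := hC x
  have h2 : (fun i : Fin r => eval x (MvPolynomial.C (c i) *
      ∏ j, map (algebraMap (𝓞 K) K) (F j) ^ a i j)) = pt F a c x := by
    funext i
    rw [pt, map_mul, eval_C, map_prod]
    congr 1
    refine Finset.prod_congr rfl fun j _ => ?_
    rw [map_pow, aeval_eq_eval]
  rw [← h2]
  exact h1

/-- **the conclusion from a lower bound for the truncated counting function** -/
theorem finish (F : Fin q → MvPolynomial (Fin (n + 1)) (𝓞 K)) (k : Fin q → ℕ)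
    (hF : ∀ j, (F j).IsHomogeneous (k j)) (D : ℕ) (a : Fin r → Fin q → ℕ)
    (ha : ∀ i, ∑ j, a i j * k j = D) (hpos : ∀ j, ∃ i, 1 ≤ a i j) (l : Fin q → Fin r)
    (c : Fin r → K) (hc : ∀ i, c i ≠ 0) (S : Finset ℕ) (θ : ℝ) (hθ : 0 < θ) (E : ℝ) :
    ∃ C : ℝ, ∀ (B : ℕ), 1 ≤ B → ∀ P : ℙ K (Fin (n + 1) → K), P.mulHeight ≤ B →
      (∀ j, aeval P.rep (F j) ≠ 0) →
      θ * Real.log B + 1 * ∑ j, idealHeight (F j) (∏ j', F j' ^ a (l j) j') (k j) D P.rep ≤
        truncatedCount S F k P.rep + E →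
      (∀ i, pt F a c P.rep i ≠ 0) ∧ θ * Real.log B ≤ radK (pt F a c P.rep) + C ∧
        Height.logHeight (pt F a c P.rep) ≤ D / θ * radK (pt F a c P.rep) + C := by
  obtain ⟨C1, hC1⟩ := trunc_le_rad F k hF D a ha hpos l c hc S
  by_cases hr : Nonempty (Fin r)
  · obtain ⟨C2, hC2⟩ := height_pt F k hF D a ha c
    refine ⟨max (C1 + E) (C2 + D / θ * (C1 + E)), fun B hB P hP hne h => ?_⟩
    have h1 := hC1 P.rep P.rep_nonzero hne
    have h2 : θ * Real.log B ≤ radK (pt F a c P.rep) + (C1 + E) := by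
      have h3 : radK (pt F a c P.rep) = radK (fun i => c i * ∏ j, aeval P.rep (F j) ^ a i j) := rfl
      rw [h3]
      linarith
    refine ⟨fun i => mul_ne_zero (hc i)
      (Finset.prod_ne_zero_iff.2 fun j _ => pow_ne_zero _ (hne j)), ?_, ?_⟩
    · have := le_max_left (C1 + E) (C2 + D / θ * (C1 + E))
      linarith
    · have h4 := hC2 P.rep
      have h5 : Height.logHeight P.rep ≤ Real.log B := by
        have h6 : P.mulHeight = Height.mulHeight P.rep := by
          conv_lhs => rw [← P.mk_rep]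
          rw [Projectivization.mulHeight_mk]
        rw [h6] at hP
        exact Real.log_le_log (Height.mulHeight_pos _) hP
      have h7 : (D : ℝ) * Real.log B ≤ D / θ * (radK (pt F a c P.rep) + (C1 + E)) := by
        have h8 := mul_le_mul_of_nonneg_left h2 (by positivity : 0 ≤ (D : ℝ) / θ)
        rwa [← mul_assoc, div_mul_cancel₀ _ hθ.ne'] at h8
      have h8 := mul_le_mul_of_nonneg_left h5 (Nat.cast_nonneg (α := ℝ) D)
      have := le_max_right (C1 + E) (C2 + D / θ * (C1 + E))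
      linarith
  · have hq : IsEmpty (Fin q) := by
      by_contra hcon
      rw [not_isEmpty_iff] at hcon
      obtain ⟨j⟩ := hcon
      obtain ⟨i, -⟩ := hpos j
      exact hr ⟨i⟩
    have hr' : IsEmpty (Fin r) := not_nonempty_iff.1 hr
    refine ⟨max (C1 + E) (-(D / θ * radK (fun _ : Fin r => (0 : K)))) , fun B hB P hP hne h => ?_⟩
    have h1 := hC1 P.rep P.rep_nonzero hne
    have h0 : pt F a c P.rep = fun _ : Fin r => (0 : K) := Subsingleton.elim _ _
    refine ⟨fun i => (hr ⟨i⟩).elim, ?_, ?_⟩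
    · have h3 : radK (pt F a c P.rep) = radK (fun i => c i * ∏ j, aeval P.rep (F j) ^ a i j) := rfl
      rw [h3]
      have := le_max_left (C1 + E) (-(D / θ * radK (fun _ : Fin r => (0 : K))))
      linarith
    · rw [h0]
      have h9 : Height.logHeight (fun _ : Fin r => (0 : K)) = 0 := Height.logHeight_zero
      rw [h9]
      have := le_max_right (C1 + E) (-(D / θ * radK (fun _ : Fin r => (0 : K))))
      linarith

theorem main_projective (F : Fin q → MvPolynomial (Fin (n + 1)) (𝓞 K)) (k m : Fin q → ℕ)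
    (hhom : ∀ j, (F j).IsHomogeneous (k j)) (hirr : ∀ j, Irreducible (toK (F j)))
    (hdist : ∀ i j, i ≠ j → ¬ Associated (toK (F i)) (toK (F j)))
    (hm : ∀ j, m j ≤ 1 ∨ (m j ≤ k j ∧ k j ≤ 2) ∨ IsNormForm (F j) (m j))
    (D : ℕ) (a : Fin r → Fin q → ℕ) (ha : ∀ i, ∑ j, a i j * k j = D)
    (hpos : ∀ j, ∃ i, 1 ≤ a i j) (hzero : ∀ j, ∃ i, a i j = 0)
    (c : Fin r → K) (hc : ∀ i, c i ≠ 0) (θ : ℝ) (hθ0 : 0 < θ) (hθ : θ < ∑ j, (m j : ℝ)) :
    ∃ ε : ℝ, 0 < ε ∧ ∃ C : ℝ, ∀ B : ℕ, 1 ≤ B → ∃ Z : Finset (ℙ K (Fin (n + 1) → K)),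
      (Z.card : ℝ) ≤ C * (B : ℝ) ^ ((n : ℝ) + 1 - ε) ∧
      ∀ P : ℙ K (Fin (n + 1) → K), P.mulHeight ≤ B → P ∉ Z →
        (∀ i, pt F a c P.rep i ≠ 0) ∧ θ * Real.log B ≤ radK (pt F a c P.rep) + C ∧
          Height.logHeight (pt F a c P.rep) ≤ D / θ * radK (pt F a c P.rep) + C := by
  choose l hl using hzero
  have hcop : ∀ j, ¬ toK (F j) ∣ toK (∏ j', F j' ^ a (l j) j') := by
    intro j hd
    rw [map_prod] at hd
    obtain ⟨j', -, h⟩ := ((hirr j).prime.dvd_finsetProd_iff _).1 hd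
    rw [map_pow] at h
    by_cases hj : j' = j
    · subst hj
      rw [hl, pow_zero] at h
      exact (hirr j').not_isUnit (isUnit_of_dvd_one h)
    · exact hdist j j' (Ne.symm hj)
        ((hirr j).associated_of_dvd (hirr j') ((hirr j).prime.dvd_of_dvd_pow h))
  have hG : ∀ i, (∏ j', F j' ^ a i j').IsHomogeneous D := by
    intro i
    rw [← ha i]
    have := IsHomogeneous.prod Finset.univ (fun j' => F j' ^ a i j') (fun j' => a i j' * k j')
      (fun j' _ => by
        have := (hhom j').pow (a i j')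
        rwa [mul_comm] at this)
    exact this
  obtain ⟨ε, hε, C, h⟩ := main_points F k m hhom hirr hdist hm ∅ (by simp)
    F (fun j => ∏ j', F j' ^ a (l j) j') k (fun _ => D) hhom (fun j => hG (l j)) hirr hcop 1
    zero_le_one θ hθ
  obtain ⟨C', h'⟩ := finish F k hhom D a ha hpos l c hc ∅ θ hθ0 0
  refine ⟨ε, hε, max C C', fun B hB => ?_⟩
  obtain ⟨Z, hZ, h1⟩ := h B hB
  refine ⟨Z, hZ.trans (mul_le_mul_of_nonneg_right (le_max_left _ _) (by positivity)), ?_⟩
  intro P hP hPZ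
  obtain ⟨h2, h3⟩ := h1 P hP hPZ
  obtain ⟨h4, h5, h6⟩ := h' B hB P hP h2 (by rw [add_zero]; exact h3)
  have := le_max_right C C'
  exact ⟨h4, by linarith, by linarith⟩

end Pool.Agent.R366.AB
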