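import Mathlib
import Pool.Agent.R366.AB.Main
import Pool.Agent.R366.QD.Main

set_option autoImplicit false

/-!
# Images of quadrics in the hyperplane `z_1 + ⋯ + z_r = 0`
-/

namespace Pool.Agent.R366.AB

open MvPolynomial NumberField IsDedekindDomain Pool.Agent.R366.NF Pool.Agent.R366.QD

open scoped Classical LinearAlgebra.Projectivization

variable {K : Type} [Field K] [NumberField K] {n q r : ℕ}

omit [NumberField K] in
lemma rankGe_mono {m s : ℕ} {A : Fin m → Fin m → 𝓞 K} {W W' : Set (Fin m → K)} (h : RankGe A W s)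
    (hW : W ⊆ W') : RankGe A W' s := by
  obtain ⟨w, h1, h2⟩ := h
  exact ⟨w, fun a => hW (h1 a), h2⟩

omit [NumberField K] in
lemma along_prod {m : ℕ} (F : Fin q → MvPolynomial (Fin m) (𝓞 K)) (a : Fin q → ℕ) (w : Fin m → K)
    (h : ∀ j, a j ≠ 0 → Along (F j) w) : Along (∏ j, F j ^ a j) w := by
  intro c x
  rw [map_prod, map_prod]
  refine Finset.prod_congr rfl fun j _ => ?_
  rw [map_pow, map_pow]
  by_cases hj : a j = 0
  · rw [hj, pow_zero, pow_zero]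
  · rw [h j hj c x]

theorem main_quad {A : Fin (n + 1) → Fin (n + 1) → 𝓞 K} (hA : ∀ i j, A i j = A j i)
    (h5 : RankGe A Set.univ 5)
    (F : Fin q → MvPolynomial (Fin (n + 1)) (𝓞 K)) (k m : Fin q → ℕ)
    (hhom : ∀ j, (F j).IsHomogeneous (k j)) (hirr : ∀ j, Irreducible (toK (F j)))
    (hdist : ∀ i j, i ≠ j → ¬ Associated (toK (F i)) (toK (F j)))
    (hm : ∀ j, m j ≤ 1 ∨ (m j ≤ k j ∧ k j ≤ 2) ∨ IsNormForm (F j) (m j))
    (hpair : ∀ i j, RankGe A {w | Along (F i) w ∧ Along (F j) w} 2)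
    (D : ℕ) (a : Fin r → Fin q → ℕ) (ha : ∀ i, ∑ j, a i j * k j = D)
    (hpos : ∀ j, ∃ i, 1 ≤ a i j)
    (hzero : ∀ j, ∃ i, a i j = 0 ∧
      RankGe A {w | Along (F j) w ∧ ∀ j', a i j' ≠ 0 → Along (F j') w} 2)
    (c : Fin r → K) (hc : ∀ i, c i ≠ 0) (θ : ℝ) (hθ0 : 0 < θ) (hθ : θ < ∑ j, (m j : ℝ)) :
    ∃ ε : ℝ, 0 < ε ∧ ∃ C : ℝ, ∀ B : ℕ, 1 ≤ B → ∃ Z : Finset (ℙ K (Fin (n + 1) → K)),
      (Z.card : ℝ) ≤ C * (B : ℝ) ^ ((n : ℝ) - 1 - ε) ∧
      ∀ P : ℙ K (Fin (n + 1) → K), ∑ i, ∑ j, (A i j : K) * P.rep i * P.rep j = 0 →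
        P.mulHeight ≤ B → P ∉ Z →
        (∀ i, pt F a c P.rep i ≠ 0) ∧ θ * Real.log B ≤ radK (pt F a c P.rep) + C ∧
          Height.logHeight (pt F a c P.rep) ≤ D / θ * radK (pt F a c P.rep) + C := by
  choose l hl hlr using hzero
  have hcop : ∀ j, ¬ toK (F j) ∣ toK (∏ j', F j' ^ a (l j) j') := by
    intro j hd
    rw [map_prod] at hd
    obtain ⟨j', -, h⟩ := ((hirr j).prime.dvd_finsetProd_iff _).1 hd
    rw [map_pow] at h
    by_cases hj : j' = j
    · subst hj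
      rw [hl, pow_zero] at h
      exact (hirr j').not_isUnit (isUnit_of_dvd_one h)
    · exact hdist j j' (Ne.symm hj)
        ((hirr j).associated_of_dvd (hirr j') ((hirr j).prime.dvd_of_dvd_pow h))
  have hG : ∀ i, (∏ j', F j' ^ a i j').IsHomogeneous D := by
    intro i
    rw [← ha i]
    have := IsHomogeneous.prod Finset.univ (fun j' => F j' ^ a i j') (fun j' => a i j' * k j')
      (fun j' _ => by
        have := (hhom j').pow (a i j')
        rwa [mul_comm] at this)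
    exact this
  obtain ⟨ε, hε, C, h⟩ := main_quadric hA h5 F k m hhom hirr hdist hm hpair ∅ (by simp)
    F (fun j => ∏ j', F j' ^ a (l j) j') k (fun _ => D) hhom (fun j => hG (l j)) hirr hcop
    (fun j => rankGe_mono (hlr j) fun w hw => ⟨hw.1, along_prod F _ w hw.2⟩) 1
    zero_le_one θ hθ
  obtain ⟨C', h'⟩ := finish F k hhom D a ha hpos l c hc ∅ θ hθ0 0
  refine ⟨ε, hε, max C C', fun B hB => ?_⟩
  obtain ⟨Z, hZ, h1⟩ := h B hB
  refine ⟨Z, hZ.trans (mul_le_mul_of_nonneg_right (le_max_left _ _) (by positivity)), ?_⟩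
  intro P hPA hP hPZ
  obtain ⟨h2, h3⟩ := h1 P hPA hP hPZ
  obtain ⟨h4, h5, h6⟩ := h' B hB P hP h2 (by rw [add_zero]; exact h3)
  have := le_max_right C C'
  exact ⟨h4, by linarith, by linarith⟩

end Pool.Agent.R366.AB
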